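import Pool.Agent.MWGX.StmtsB

set_option autoImplicit false

/-!
# Row FG2 of squad MWGX (MP_23468a_al): form of the instances, level 2
-/

namespace Pool.Agent.MWGX.H50

open Pool.Agent.Helper14_MV Pool.Agent.Helper2_MV
open Pool.Agent.MWK (pre)
open Pool.Agent.MWF (gaml)
open Pool.Agent.MWGN (nn Nm WC WT Tau Ns nl sg)
open Pool.Agent.MWGQ (pw Gn E0 A0 P0 bd kr krl Rs)
open Pool.Agent.MWGR (X It Kaba F1 Dm Ec Es Ea Al0 Rh FE)

/-- shift of the products -/
theorem range_shift (g u : ℕ → List ℕ) (h0 : u 0 = []) (M : ℕ) :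
    (List.range (M + 1)).flatMap (fun i => u i ++ g i) =
      (List.range M).flatMap (fun i => g i ++ u (i + 1)) ++ g M := by
  induction M with
  | zero => simp [h0]
  | succ M ih =>
    rw [List.range_succ, List.flatMap_append, ih, List.range_succ (n := M), List.flatMap_append]
    simp [List.append_assoc]

theorem range_congr {M : ℕ} {a b : ℕ → List ℕ} (h : ∀ i < M, a i = b i) :
    (List.range M).flatMap a = (List.range M).flatMap b := by
  induction M with
  | zero => simp
  | succ M ih =>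
    rw [List.range_succ, List.flatMap_append, List.flatMap_append,
      ih (fun i hi => h i (by omega)), List.flatMap_singleton, List.flatMap_singleton,
      h M (by omega)]

/-- the image of `bd` -/
theorem bd_flat (n : ℕ) (L C : ℕ → ℕ) (M : ℕ) (f : ℕ → List ℕ) :
    (bd n (sg L) (sg C) M).flatMap f =
      (List.range M).flatMap (fun i => f (L i) ++ pw (n + 1) (f (C i))) := by
  unfold bd
  rw [List.flatMap_assoc]
  apply range_congr
  intro i _
  unfold sg
  rw [List.flatMap_append, pw_one, flat_rep]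
  simp

theorem fac_of_mem {c : ℕ} {l : List ℕ} (h : c ∈ l) (f : ℕ → List ℕ) :
    ∃ H1 H2, l.flatMap f = H1 ++ (f c ++ H2) := by
  obtain ⟨s, t, e⟩ := List.append_of_mem h
  exact ⟨s.flatMap f, t.flatMap f, by rw [e]; simp [List.flatMap_append, List.flatMap_cons]⟩

theorem gLR_flat (n : ℕ) (o' : Bool) (a b c : ℕ) (f : ℕ → List ℕ) :
    ((if o' then gL n 1 [a] [b] [c] else gR n 1 [a] [b] [c]) : List ℕ).flatMap f =
      if o' then gL n 1 (f a) (f b) (f c) else gR n 1 (f a) (f b) (f c) := by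
  cases o'
  · simp only [gR, pw_one, List.flatMap_append, flat_rep, List.flatMap_singleton,
      Bool.false_eq_true, if_false]
  · simp only [gL, pw_one, List.flatMap_append, flat_rep, List.flatMap_singleton, if_true]

theorem fg2 : Fg2Stmt := by
  intro n hn τ m hτ f o
  obtain ⟨hnd, hmem⟩ := hτ
  obtain ⟨τ1, τ2, eτ⟩ := List.append_of_mem ((hmem m).2 le_rfl)
  obtain ⟨g, hg⟩ : ∃ g : ℕ → List ℕ, g = fun i => f ((N2 m).L i) := ⟨_, rfl⟩
  obtain ⟨u, hu⟩ : ∃ u : ℕ → List ℕ, u = fun i =>
      if i = 0 ∨ i = m + 3 then [] else pw (n + 1) (f ((N2 m).C (i - 1))) := ⟨_, rfl⟩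
  have hu0 : u 0 = [] := by rw [hu]; simp
  have hu3 : u (m + 3) = [] := by rw [hu]; simp
  have hui : ∀ i < m + 2, u (i + 1) = pw (n + 1) (f ((N2 m).C i)) := by
    intro i hi
    rw [hu]
    have h1 : ¬ (i + 1 = 0 ∨ i + 1 = m + 3) := by omega
    simp only [h1, if_false, Nat.add_sub_cancel]
  have hghc : ghc g u (m + 3) = (bd n (sg (N2 m).L) (sg (N2 m).C) (m + 2)).flatMap f ++
      f ((N2 m).L (m + 2)) := by
    unfold ghc
    rw [range_shift g u hu0 (m + 2), hu3, List.append_nil, bd_flat]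
    have h1 : (List.range (m + 2)).flatMap (fun i => g i ++ u (i + 1)) =
        (List.range (m + 2)).flatMap
          (fun i => f ((N2 m).L i) ++ pw (n + 1) (f ((N2 m).C i))) := by
      apply range_congr
      intro i hi
      rw [hui i hi, hg]
    rw [h1, hg]
  have hTm : (τ.flatMap (fun i => (N2 m).S i :: T2 m i)) =
      τ1.flatMap (fun i => (N2 m).S i :: T2 m i) ++ ((N2 m).S m ::
        ([(N2 m).L m, (N2 m).L (m + 1), (N2 m).L (m + 2)] ++
          τ2.flatMap (fun i => (N2 m).S i :: T2 m i))) := by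
    rw [eτ]
    simp [T2]
  refine ⟨((if o then gL n 1 [5] [0] [1] else gR n 1 [5] [0] [1]) ++
      2 :: 0 :: bd n (sg N1.L) (sg N1.C) m).flatMap f,
    (1 :: 3 :: (τ1.flatMap (fun i => N1.S i :: T1 n m i) ++ [N1.S m])).flatMap f,
    (τ2.flatMap (fun i => N1.S i :: T1 n m i) ++
      4 :: τ.flatMap (fun i => (N2 m).S i :: T2 m i)).flatMap f, g, u, ?_, ?_, ?_, ?_⟩
  · intro o'
    rw [hghc, ← gLR_flat]
    have e : w0 n τ m o o' = ((if o then gL n 1 [5] [0] [1] else gR n 1 [5] [0] [1]) ++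
        2 :: 0 :: bd n (sg N1.L) (sg N1.C) m) ++
        ((if o' then gL n 1 [6] [N1.L m] [N1.L (m + 1)] else
          gR n 1 [6] [N1.L m] [N1.L (m + 1)]) ++
        ((1 :: 3 :: (τ1.flatMap (fun i => N1.S i :: T1 n m i) ++ [N1.S m])) ++
        (N1.L m :: (bd n (sg (N2 m).L) (sg (N2 m).C) (m + 2) ++ ((N2 m).L (m + 2) ::
          (N1.L (m + 1) :: (τ2.flatMap (fun i => N1.S i :: T1 n m i) ++
            4 :: τ.flatMap (fun i => (N2 m).S i :: T2 m i)))))))) := by
      unfold w0 ww
      have e1 : τ.flatMap (fun i => N1.S i :: T1 n m i) =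
          τ1.flatMap (fun i => N1.S i :: T1 n m i) ++ (N1.S m :: (N1.L m ::
            (bd n (sg (N2 m).L) (sg (N2 m).C) (m + 2) ++ ((N2 m).L (m + 2) ::
              (N1.L (m + 1) :: τ2.flatMap (fun i => N1.S i :: T1 n m i)))))) := by
        rw [eτ]
        simp [T1]
      rw [e1]
      simp only [List.append_assoc, List.cons_append, List.nil_append]
    rw [e]
    simp only [List.flatMap_append, List.flatMap_cons, List.append_assoc]
  · intro i hi
    rw [hg]
    apply fac_of_mem
    refine List.mem_append.2 (Or.inr (List.mem_cons.2 (Or.inr ?_)))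
    by_cases him : i < m
    · refine List.mem_flatMap.2 ⟨i, (hmem i).2 (by omega), ?_⟩
      unfold T2
      rw [if_neg (by omega)]
      simp
    · refine List.mem_flatMap.2 ⟨m, (hmem m).2 le_rfl, ?_⟩
      unfold T2
      rw [if_pos rfl]
      have h1 : i = m ∨ i = m + 1 ∨ i = m + 2 := by omega
      rcases h1 with rfl | rfl | rfl <;> simp
  · intro i hi d hd
    have h1 : ¬ (i = 0 ∨ i = m + 3) := by
      rintro (h | h)
      · rw [h, hu0] at hd; simp at hd
      · rw [h, hu3] at hd; simp at hd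
    have h2 : u i = pw (n + 1) (f ((N2 m).C (i - 1))) := by
      rw [hu]
      simp only [h1, if_false]
    rw [h2] at hd ⊢
    rw [count_pw]
    have h3 : 1 ≤ (f ((N2 m).C (i - 1))).count d := List.count_pos_iff.2 (mem_pw hd)
    nlinarith
  · refine ⟨(τ2.flatMap (fun i => N1.S i :: T1 n m i) ++
      4 :: (τ1.flatMap (fun i => (N2 m).S i :: T2 m i) ++ [(N2 m).S m])).flatMap f,
      (τ2.flatMap (fun i => (N2 m).S i :: T2 m i)).flatMap f, ?_⟩
    rw [hTm, hg]
    simp only [List.flatMap_append, List.flatMap_cons, List.append_assoc, List.flatMap_nil,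
      List.append_nil, List.nil_append]

end Pool.Agent.MWGX.H50
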