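import Pool.Agent.MWGX.StmtsA

set_option autoImplicit false

/-!
# Row PN3 of squad MWGX (MP_23468a_al): a pentagon
-/

namespace Pool.Agent.MWGX.H50

open Pool.Agent.Helper14_MV Pool.Agent.Helper2_MV
open Pool.Agent.MWK (pre)
open Pool.Agent.MWF (gaml)
open Pool.Agent.MWGN (nn)
open Pool.Agent.MWGQ (pw Gn E0 A0 P0)
open Pool.Agent.MWGR (X It Kaba F1 Dm Ec Es Ea Al0 Rh FE)

/-- the first class -/
def Kb (δ : ℕ) (w : List ℕ) : Prop := KZ w ∧ Lb δ w ∧ nn w 1 2 = 1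

/-- the second class -/
def Kc (δ : ℕ) (w : List ℕ) : Prop := KZ w ∧ Az w ∧ Lb δ w

theorem lb_trans {δ : ℕ} {w w' : List ℕ} (h1 : nn w 0 1 ≡ nn w' 0 1 [MOD δ])
    (h2 : nn w 0 2 ≡ nn w' 0 2 [MOD δ]) (h : Lb δ w) : Lb δ w' := by
  unfold Lb at h ⊢
  exact (h2.symm.trans h).trans (h1.add_right 1)

/-- insertions keep the first class -/
theorem kb_ins {n δ : ℕ} (hd : δ ∣ n) {w w' : List ℕ} (h : OX w w')
    (h1 : ∀ d q, nn w d q ≡ nn w' d q [MOD n]) (h2 : ∀ d q, nn w d q = 1 ↔ nn w' d q = 1)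
    (hk : Kb δ w) : Kb δ w' := by
  obtain ⟨k1, k2, k3⟩ := hk
  refine ⟨h.kz k1 (fun e => k1.az ((h2 1 4).2 e)) ((h2 2 4).1 k1.bz), ?_, (h2 1 2).1 k3⟩
  exact lb_trans ((h1 0 1).of_dvd hd) ((h1 0 2).of_dvd hd) k2

/-- exchanges keep the second class -/
theorem kc_ex (hkzx : KzxStmt) (hexl : ExlStmt) {n c δ : ℕ} (hn : 1 ≤ n) (hd : δ ∣ n)
    {p Z A B F G H w w' : List ℕ} (ex : Ex n c p Z A B F G H w w')
    (hG : ∀ d ∈ G, 2 ≤ w.count d) : Kc δ w ↔ Kc δ w' := by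
  have hx := hkzx n c p Z A B F G H w w' hn ex hG
  have hl : KZ w → nn w 0 1 ≡ nn w' 0 1 [MOD δ] ∧ nn w 0 2 ≡ nn w' 0 2 [MOD δ] := by
    intro k
    have e := hexl n c p Z A B F G H w w' hn ex (Or.inl hG)
    exact ⟨(e 0 1 3 k.s3 (by norm_num) (by norm_num) k.a3 k.x3).of_dvd hd,
      (e 0 2 3 k.s3 (by norm_num) (by norm_num) k.b3 k.x3).of_dvd hd⟩
  constructor
  · rintro ⟨k1, k2, k3⟩
    obtain ⟨k4, k5⟩ := hx.1 k1 k2
    exact ⟨k4, k5, lb_trans (hl k1).1 (hl k1).2 k3⟩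
  · rintro ⟨k1, k2, k3⟩
    obtain ⟨k4, k5⟩ := hx.2 k1 k2
    exact ⟨k4, k5, lb_trans (hl k4).1.symm (hl k4).2.symm k3⟩

/-- exchanges with empty `G` keep the order -/
theorem ord_ex (hexo : ExoStmt) (hzes : ZesStmt) {n c : ℕ} (hn : 1 ≤ n)
    {p Z A B F H w w' : List ℕ} (ex : Ex n c p Z A B F [] H w w') (k : KZ w) (ka : Az w) :
    nn w 1 2 = 1 ↔ nn w' 1 2 = 1 := by
  have key : 1 ∈ A ++ B → 2 ∈ A ++ B → 3 ∈ F → False := by
    intro h1 h2 h3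
    have e : w = (p ++ (gL n c Z A B ++ F)) ++ ((A ++ B) ++ H) := by
      rw [ex.e]
      simp [List.append_assoc]
    have h3c : 1 ≤ F.count 3 := List.count_pos_iff.2 h3
    have hc3 : (p ++ gL n c Z A B).count 3 = 0 := by
      have h4 := k.s3
      rw [e] at h4
      simp only [List.count_append] at h4 ⊢
      omega
    have h3p : 3 ∉ p ++ gL n c Z A B := List.count_eq_zero.1 hc3
    have h4n : 4 ∉ A ++ B := by
      intro h4
      have h5 : 4 ∈ gL n c Z A B := by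
        unfold gL
        rcases List.mem_append.1 h4 with h6 | h6
        · simp [h6]
        · simp [h6]
      have h6 : pre w 3 = (p ++ gL n c Z A B) ++ pre (F ++ ((A ++ B) ++ H)) 3 := by
        rw [e]
        have e2 : (p ++ (gL n c Z A B ++ F)) ++ ((A ++ B) ++ H) =
            (p ++ gL n c Z A B) ++ (F ++ ((A ++ B) ++ H)) := by
          simp [List.append_assoc]
        rw [e2, MWK.pre_append h3p]
      have h7 := k.z3
      unfold nn at h7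
      rw [h6] at h7
      have h8 := List.count_eq_zero.1 h7
      exact h8 (by simp [h5])
    exact hzes w _ _ _ e k ka (by simp [h3]) h4n ⟨h1, h2⟩
  have ho := hexo n c p Z A B F [] H w w' hn ex 1 2 3 k.s3 (by norm_num) (by norm_num) k.a3 k.b3
  constructor
  · intro h
    by_contra hne
    obtain ⟨h1, h2, h3, -⟩ := ho.1 h hne
    exact key (by simp [h1]) (by simp [h2]) h3
  · intro h
    by_contra hne
    obtain ⟨h1, h2, h3, -⟩ := ho.2 h hne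
    exact key (by simp [h1]) (by simp [h2]) h3

theorem pn3 (h1 : DgrStmt) (_h2 : OxvStmt) (h3 : LbwStmt) (h4 : EsvStmt) (h5 : RhpStmt)
    (h6 : KzvStmt) (h7 : KzxStmt) (h8 : ExlStmt) (h9 : ExoStmt) (h10 : InsStmt) (h11 : ZesStmt)
    (h12 : SkzStmt) (h13 : Ei3Stmt) : Pn3Stmt := by
  intro n β hM hG hE hIt
  by_contra hcon
  have hEs : ¬ Es n 1 (RR β) := fun h => hcon (Or.inl h)
  have hA : ¬ A0 n β := fun h => hcon (Or.inr (Or.inl h))
  have hRh : ¬ Rh n (RR β) := fun h => hcon (Or.inr (Or.inr h))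
  have hP : ¬ P0 n β := fun h => hRh ((h5 n β hG).1 h)
  have hn : 1 ≤ n := hG.pos
  obtain ⟨δ, hδ⟩ := h1 n β hn hIt
  have hlb : ∀ u v : List ℕ, RR β u v → KZ u → Lb δ u → Lb δ v := by
    intro u v huv k hl
    exact lb_trans (h3 n β δ hG hE hIt hδ u v huv 0 1 3 k.s3 k.a2 k.a3 k.x2 k.x3)
      (h3 n β δ hG hE hIt hδ u v huv 0 2 3 k.s3 k.b2 k.b3 k.x2 k.x3) hl
  have hb : β ≤ gaml (Kb δ) := by
    apply MWF.le_gaml
    rintro u v huv ⟨k1, k2, k3⟩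
    refine ⟨(h6 n β hG hE hP u v huv k1).1, hlb u v huv k1 k2, ?_⟩
    by_contra hne
    exact hEs (h4 n β δ hG hE hIt hδ u v huv k1.s3 k1.x2 k1.x3 k1.a2 k1.a3 k1.b2 k1.b3 k3 hne 1
      k2)
  have hc : β ≤ gaml (Kc δ) := by
    apply MWF.le_gaml
    rintro u v huv ⟨k1, k2, k3⟩
    obtain ⟨k4, k5⟩ := h6 n β hG hE hP u v huv k1
    exact ⟨k4, k5 hA k2, hlb u v huv k1 k3⟩
  -- σ
  have hσ : Al0 n (RR (gaml (Kb δ))) := by
    unfold Al0
    apply MWF.RR_gaml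
    intro f p q
    rw [flat_al, flat_ar]
    have hi := h10 n p (f 0) (f 1) (f 2 ++ (f 1 ++ q)) _ _ rfl rfl (Or.inr (by
      intro d hd
      have h14 : 1 ≤ (f 1).count d := List.count_pos_iff.2 hd
      simp only [List.count_append]
      omega))
    obtain ⟨i1, i2, i3⟩ := hi
    constructor
    · exact kb_ins hδ.dv i1 i2 i3
    · exact kb_ins hδ.dv i1.symm (fun d q => (i2 d q).symm) (fun d q => (i3 d q).symm)
  -- τ
  have hτ : Ez n 1 (RR (gaml (Kc δ))) := by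
    unfold Ez Ec
    apply MWF.RR_gaml
    intro f p q
    refine kc_ex h7 h8 hn hδ.dv (ex_ez n 1 f p q) ?_
    intro d hd
    have h14 : 1 ≤ (f 4).count d := List.count_pos_iff.2 hd
    rw [(ex_ez n 1 f p q).e]
    simp only [List.count_append]
    omega
  -- ρ
  have hρ1 : Es n 1 (RR (gaml (Kc δ))) := by
    unfold Es Ec
    apply MWF.RR_gaml
    intro f p q
    exact kc_ex h7 h8 hn hδ.dv (ex_es n 1 f p q) (by simp)
  have hρ2 : Es n 1 (RR (gaml (fun w => Kb δ w ∧ Kc δ w))) := by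
    unfold Es Ec
    apply MWF.RR_gaml
    intro f p q
    have e := kc_ex h7 h8 hn hδ.dv (ex_es n 1 f p q) (by simp)
    have o := fun k ka => ord_ex h9 h11 hn (ex_es n 1 f p q) k ka
    constructor
    · rintro ⟨⟨k1, k2, k3⟩, k4⟩
      have k5 := e.1 k4
      exact ⟨⟨k5.1, k5.2.2, (o k4.1 k4.2.1).1 k3⟩, k5⟩
    · rintro ⟨⟨k1, k2, k3⟩, k4⟩
      have k5 := e.2 k4
      exact ⟨⟨k5.1, k5.2.2, (o k5.1 k5.2.1).2 k3⟩, k5⟩
  have hs : Ez n 1 (RR (FIC.sup (FIC.inf (gaml (fun w => Kb δ w ∧ Kc δ w)) (gaml (Kc δ)))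
      (gaml (Kb δ)))) := by
    refine h13 n β _ hG ?_ ?_ 1 ?_
    · exact fun a b h => FIC.le_sup_right _ _ a b (hb a b h)
    · exact FIC.le_sup_right _ _ _ _ hσ
    · exact FIC.le_sup_left _ _ _ _ ⟨hρ2, hρ1⟩
  obtain ⟨z1, z2, z3, z4, z5⟩ := h12 n δ hn hδ.dv _ _ rfl rfl
  have hfin := pen hM (Kb δ) (Kc δ) hb hc hs hτ ⟨⟨z1, z4, z3⟩, ⟨z1, z2, z4⟩⟩
  have h15 := hfin.1.2.2
  rw [z5] at h15
  exact absurd h15 (by norm_num)

end Pool.Agent.MWGX.H50
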